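import Pool.Agent.Work.MP_4da8b1_gt_helper46.Main

/-!
# The lower bound of Q1 for pairs, for spread families and for `n ≤ 2`

`N ≥ n + 1` balanced families of unit vectors of `ℝⁿ`; for `N = n + 1` the bound is `√(n + 2)`.
-/

open Pool.Agent.Work.MP_4da8b1_gt Pool.Agent.Work.MP_4da8b1_gt_helper46

theorem Pool.Agent.Work.MP_4da8b1_gt_helper46.BoundPairsSpread_result (n N : ℕ) (hN : n + 1 ≤ N)
    (U : Fin N → Finset (E n)) (c : E n) (hU : ∀ i, IsBalanced n (U i))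
    (h : (∃ i₀ : Fin N, ∀ i, i ≠ i₀ → (U i).card = 2 ∨ ∃ u ∈ U i, -u ∈ U i) ∨
      Spread n N U ∨ 3 * n ≤ 2 * N) :
    ∃ s : Fin N → E n, (∀ i, s i ∈ U i) ∧ √((N : ℝ) + 1) ≤ ‖(∑ i, s i) - c‖ :=
  main_all hN U c hU h
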