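import Mathlib

/-!
# Signs against the smallest eigenvalue

For a symmetric real matrix `β` with zero diagonal and every real vector `y` there is a choice of
signs `ε` with `yᵀ β y + |y|² εᵀ β ε ≤ 0`.
-/

namespace Pool.Agent.Work.MP_4da8b1_gt_helper46

open Finset

/-- the quadratic form of a matrix -/
def Q {ι : Type*} [Fintype ι] (β : ι → ι → ℝ) (y : ι → ℝ) : ℝ := ∑ k, ∑ l, y k * y l * β k l

lemma Q_add_single {ι : Type*} [Fintype ι] [DecidableEq ι] (β : ι → ι → ℝ)
    (hs : ∀ i j, β i j = β j i) (y : ι → ℝ) (i : ι) (t : ℝ) :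
    Q β (fun k => y k + if k = i then t else 0) =
      Q β y + 2 * t * (∑ k, β i k * y k) + t ^ 2 * β i i := by
  unfold Q
  have h1 : ∀ k, ∑ l, (y k + if k = i then t else 0) * (y l + if l = i then t else 0) * β k l =
      (∑ l, y k * y l * β k l) + t * (y k * β k i) + (if k = i then t * ∑ l, y l * β k l else 0)
        + (if k = i then t ^ 2 * β k i else 0) := by
    intro k
    have : ∀ l, (y k + if k = i then t else 0) * (y l + if l = i then t else 0) * β k l =
        y k * y l * β k l + (if l = i then t * (y k * β k l) else 0) +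
          (if k = i then t * (y l * β k l) else 0) +
          (if k = i then (if l = i then t ^ 2 * β k l else 0) else 0) := by
      intro l
      split_ifs <;> ring
    rw [Finset.sum_congr rfl fun l _ => this l]
    rw [Finset.sum_add_distrib, Finset.sum_add_distrib, Finset.sum_add_distrib]
    simp only [Finset.sum_ite_eq', Finset.mem_univ, if_true]
    split_ifs with h
    · rw [Finset.mul_sum, Finset.sum_ite_eq']
      simp
    · simp
  rw [Finset.sum_congr rfl fun k _ => h1 k]
  rw [Finset.sum_add_distrib, Finset.sum_add_distrib, Finset.sum_add_distrib]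
  simp only [Finset.sum_ite_eq', Finset.mem_univ, if_true]
  have h2 : ∑ k, t * (y k * β k i) = t * ∑ k, β i k * y k := by
    rw [Finset.mul_sum]
    refine Finset.sum_congr rfl fun k _ => ?_
    rw [hs k i]; ring
  have h3 : ∑ l, y l * β i l = ∑ k, β i k * y k :=
    Finset.sum_congr rfl fun k _ => by ring
  rw [h2, h3]
  ring

/-- existence of a top eigenvector of a symmetric matrix with zero diagonal -/
lemma exists_top {ι : Type*} [Fintype ι] [DecidableEq ι] [Nonempty ι] (β : ι → ι → ℝ)
    (hs : ∀ i j, β i j = β j i) (h0 : ∀ i, β i i = 0) :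
    ∃ (v : ι → ℝ) (lam : ℝ), 0 ≤ lam ∧ ∑ k, v k ^ 2 = 1 ∧
      (∀ i, ∑ k, β i k * v k = lam * v i) ∧ ∀ y : ι → ℝ, Q β y ≤ lam * ∑ k, y k ^ 2 := by
  -- maximise on the unit sphere
  let S : Set (ι → ℝ) := {y | ∑ k, y k ^ 2 = 1}
  have hScl : IsClosed S := isClosed_eq (by fun_prop) continuous_const
  have hSb : Bornology.IsBounded S := by
    refine (Metric.isBounded_closedBall (x := (0 : ι → ℝ)) (r := 1)).subset ?_
    intro y hy
    rw [Metric.mem_closedBall, dist_zero_right, pi_norm_le_iff_of_nonneg zero_le_one]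
    intro k
    have h1 : y k ^ 2 ≤ ∑ k, y k ^ 2 :=
      Finset.single_le_sum (f := fun k => y k ^ 2) (fun _ _ => sq_nonneg _) (Finset.mem_univ k)
    have h2 : ∑ k, y k ^ 2 = 1 := hy
    rw [Real.norm_eq_abs]
    exact abs_le_one_iff_mul_self_le_one.mpr (by nlinarith)
  have hSc : IsCompact S := Metric.isCompact_of_isClosed_isBounded hScl hSb
  have hSn : S.Nonempty := by
    obtain ⟨i⟩ := ‹Nonempty ι›
    refine ⟨fun k => if k = i then 1 else 0, ?_⟩
    show ∑ k, (if k = i then (1 : ℝ) else 0) ^ 2 = 1
    simp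
  have hQc : Continuous (Q β) := by unfold Q; fun_prop
  obtain ⟨v, hvS, hvmax⟩ := hSc.exists_isMaxOn hSn hQc.continuousOn
  have hv1 : ∑ k, v k ^ 2 = 1 := hvS
  set lam := Q β v with hlam
  -- homogeneous bound
  have hhom : ∀ (y : ι → ℝ) (a : ℝ), Q β (fun k => a * y k) = a ^ 2 * Q β y := by
    intro y a
    unfold Q
    rw [Finset.mul_sum]
    refine Finset.sum_congr rfl fun k _ => ?_
    rw [Finset.mul_sum]
    refine Finset.sum_congr rfl fun l _ => ?_
    ring
  have hall : ∀ y : ι → ℝ, Q β y ≤ lam * ∑ k, y k ^ 2 := by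
    intro y
    by_cases hy : ∑ k, y k ^ 2 = 0
    · have hy0 : ∀ k, y k = 0 := by
        intro k
        have := (Finset.sum_eq_zero_iff_of_nonneg (fun k _ => sq_nonneg (y k))).mp hy k
          (Finset.mem_univ k)
        exact pow_eq_zero_iff (two_ne_zero) |>.mp this
      have : Q β y = 0 := by
        unfold Q
        simp [hy0]
      rw [this, hy, mul_zero]
    · have hpos : 0 < ∑ k, y k ^ 2 :=
        lt_of_le_of_ne (Finset.sum_nonneg fun k _ => sq_nonneg _) (Ne.symm hy)
      set s := √(∑ k, y k ^ 2) with hsdef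
      have hs0 : 0 < s := Real.sqrt_pos.mpr hpos
      have hs2 : s ^ 2 = ∑ k, y k ^ 2 := Real.sq_sqrt hpos.le
      have hmem : (fun k => s⁻¹ * y k) ∈ S := by
        show ∑ k, (s⁻¹ * y k) ^ 2 = 1
        have : ∀ k, (s⁻¹ * y k) ^ 2 = (s ^ 2)⁻¹ * y k ^ 2 := by
          intro k; rw [mul_pow, inv_pow]
        rw [Finset.sum_congr rfl fun k _ => this k, ← Finset.mul_sum, ← hs2]
        exact inv_mul_cancel₀ (by positivity)
      have h1 := hvmax hmem
      have h1' : Q β (fun k => s⁻¹ * y k) ≤ lam := h1
      rw [hhom y s⁻¹] at h1'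
      have h2 : Q β y = s ^ 2 * ((s⁻¹) ^ 2 * Q β y) := by
        field_simp
      rw [h2, ← hs2, mul_comm lam]
      exact mul_le_mul_of_nonneg_left h1' (by positivity)
  have hlam0 : 0 ≤ lam := by
    obtain ⟨i⟩ := ‹Nonempty ι›
    have h1 := hall (fun k => 0 + if k = i then 1 else 0)
    rw [Q_add_single β hs (fun _ => 0) i 1] at h1
    have h2 : Q β (fun _ : ι => (0 : ℝ)) = 0 := by unfold Q; simp
    rw [h2, h0] at h1
    have h3 : ∑ k : ι, ((0 : ℝ) + if k = i then 1 else 0) ^ 2 = 1 := by simp
    rw [h3] at h1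
    simpa using h1
  refine ⟨v, lam, hlam0, hv1, ?_, hall⟩
  intro i
  -- first order condition
  have hkey : ∀ t : ℝ, 2 * t * ((∑ k, β i k * v k) - lam * v i) ≤ lam * t ^ 2 := by
    intro t
    have h1 := hall (fun k => v k + if k = i then t else 0)
    rw [Q_add_single β hs v i t, h0] at h1
    have h3 : ∑ k, (v k + if k = i then t else 0) ^ 2 = 1 + 2 * t * v i + t ^ 2 := by
      have : ∀ k, (v k + if k = i then t else 0) ^ 2 =
          v k ^ 2 + (if k = i then 2 * t * v k else 0) + (if k = i then t ^ 2 else 0) := by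
        intro k
        split_ifs <;> ring
      rw [Finset.sum_congr rfl fun k _ => this k, Finset.sum_add_distrib, Finset.sum_add_distrib,
        hv1]
      simp
    rw [h3] at h1
    have h4 : Q β v = lam := rfl
    nlinarith
  set d := (∑ k, β i k * v k) - lam * v i with hd
  by_contra hne
  have hd0 : d ≠ 0 := by
    intro h
    apply hne
    linarith
  have h1 := hkey (d / (lam + 1))
  have hl : 0 < lam + 1 := by linarith
  have h2 : 2 * (d / (lam + 1)) * d = 2 * d ^ 2 / (lam + 1) := by ring
  have h3 : lam * (d / (lam + 1)) ^ 2 = lam * d ^ 2 / (lam + 1) ^ 2 := by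
    rw [div_pow]; ring
  rw [h2, h3, div_le_div_iff₀ hl (by positivity)] at h1
  have hd2 : 0 < d ^ 2 := by positivity
  nlinarith [mul_pos hd2 hl, mul_pos (mul_pos hd2 hl) hl]

/-- the algebra of one contraction step -/
lemma step_algebra (lam vi vj b : ℝ) (s : ℝ) (hs : s ^ 2 = 1) (F' : ℝ)
    (hyp : lam - 4 * s * lam * (vi * vj) + 2 * (vi * vj) * b + 2 * s * b * (vi - s * vj) ^ 2 +
      (1 - 2 * s * (vi * vj)) * F' ≤ 0)
    (hpos : 0 < 1 - 2 * s * (vi * vj))
    (hj : lam * (s * (vi * vj)) ≤ s * b * (1 - s * (vi * vj) + (vi - s * vj) ^ 2)) :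
    F' - 2 * s * b ≤ -lam := by
  set w := s * (vi * vj) with hw
  have h1 : (vi * vj) * b = w * (s * b) := by
    rw [hw]
    calc vi * vj * b = s ^ 2 * (vi * vj * b) := by rw [hs, one_mul]
      _ = s * (vi * vj) * (s * b) := by ring
  have h2 : 2 * (vi * vj) * b = 2 * (w * (s * b)) := by rw [← h1]; ring
  have h3 : 4 * s * lam * (vi * vj) = 4 * lam * w := by rw [hw]; ring
  have h4 : 2 * s * (vi * vj) = 2 * w := by rw [hw]; ring
  rw [h2, h3, h4] at hyp
  rw [h4] at hpos
  have key : (1 - 2 * w) * (F' - 2 * s * b + lam) ≤ 0 := by nlinarith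
  by_contra hcon
  push Not at hcon
  have : 0 < F' - 2 * s * b + lam := by linarith
  nlinarith [mul_pos hpos this]

/-- the contracted matrix: the sign of `j` is minus `s` times the sign of `i` -/
def contract {ι : Type} [DecidableEq ι] (β : ι → ι → ℝ) (i j : ι) (s : ℝ) :
    {k // k ≠ j} → {k // k ≠ j} → ℝ := fun k l =>
  β k l - (if (k : ι) = i then s * β j l else 0) - (if (l : ι) = i then s * β k j else 0) +
    (if (k : ι) = i then (if (l : ι) = i then 2 * s * β i j else 0) else 0)

/-- extension of a vector to the index `j` -/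
def ext {ι : Type} [DecidableEq ι] (i j : ι) (hij : i ≠ j) (s : ℝ) (x : {k // k ≠ j} → ℝ) :
    ι → ℝ := fun k => if h : k ≠ j then x ⟨k, h⟩ else -(s * x ⟨i, hij⟩)

lemma Q_ext {ι : Type} [Fintype ι] [DecidableEq ι] (β : ι → ι → ℝ)
    (hs : ∀ i j, β i j = β j i) (h0 : ∀ i, β i i = 0) (i j : ι) (hij : i ≠ j) (s : ℝ)
    (x : {k // k ≠ j} → ℝ) :
    Q β (ext i j hij s x) = Q (contract β i j s) x - 2 * s * β i j * x ⟨i, hij⟩ ^ 2 := by
  have hXj : ext i j hij s x j = -(s * x ⟨i, hij⟩) := by simp [ext]
  have hXk : ∀ k : {k // k ≠ j}, ext i j hij s x k = x k := by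
    intro k
    simp only [ext]
    rw [dif_pos k.2]
  have hL : Q β (ext i j hij s x) = -(2 * (s * x ⟨i, hij⟩)) * (∑ l : {k // k ≠ j}, x l * β j l) +
      ∑ k : {k // k ≠ j}, ∑ l : {k // k ≠ j}, x k * x l * β k l := by
    unfold Q
    rw [Fintype.sum_eq_add_sum_subtype_ne _ j]
    have h1 : ∑ l, ext i j hij s x j * ext i j hij s x l * β j l =
        -(s * x ⟨i, hij⟩) * ∑ l : {k // k ≠ j}, x l * β j l := by
      rw [Fintype.sum_eq_add_sum_subtype_ne _ j, h0, mul_zero, zero_add, Finset.mul_sum]
      refine Finset.sum_congr rfl fun l _ => ?_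
      rw [hXj, hXk]; ring
    have h2 : ∀ k : {k // k ≠ j}, ∑ l, ext i j hij s x k * ext i j hij s x l * β k l =
        -(s * x ⟨i, hij⟩) * (x k * β j k) + ∑ l : {k // k ≠ j}, x k * x l * β k l := by
      intro k
      rw [Fintype.sum_eq_add_sum_subtype_ne _ j]
      congr 1
      · rw [hXj, hXk, hs k j]; ring
      · refine Finset.sum_congr rfl fun l _ => ?_
        rw [hXk, hXk]
    rw [h1, Finset.sum_congr rfl fun k _ => h2 k, Finset.sum_add_distrib, ← Finset.mul_sum]
    ring
  have hR : Q (contract β i j s) x = (∑ k : {k // k ≠ j}, ∑ l : {k // k ≠ j}, x k * x l * β k l)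
      - (2 * (s * x ⟨i, hij⟩)) * (∑ l : {k // k ≠ j}, x l * β j l)
      + 2 * s * β i j * x ⟨i, hij⟩ ^ 2 := by
    unfold Q contract
    have h1 : ∀ k : {k // k ≠ j}, ∑ l : {k // k ≠ j}, x k * x l *
        (β k l - (if (k : ι) = i then s * β j l else 0) - (if (l : ι) = i then s * β k j else 0) +
          (if (k : ι) = i then (if (l : ι) = i then 2 * s * β i j else 0) else 0)) =
        (∑ l : {k // k ≠ j}, x k * x l * β k l)
        - (if k = ⟨i, hij⟩ then s * x k * (∑ l : {k // k ≠ j}, x l * β j l) else 0)
        - s * x ⟨i, hij⟩ * (x k * β j k)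
        + (if k = ⟨i, hij⟩ then 2 * s * β i j * (x k * x ⟨i, hij⟩) else 0) := by
      intro k
      have h2 : ∀ l : {k // k ≠ j}, x k * x l *
        (β k l - (if (k : ι) = i then s * β j l else 0) - (if (l : ι) = i then s * β k j else 0) +
          (if (k : ι) = i then (if (l : ι) = i then 2 * s * β i j else 0) else 0)) =
        x k * x l * β k l - (if k = ⟨i, hij⟩ then s * x k * (x l * β j l) else 0)
          - (if l = ⟨i, hij⟩ then s * x l * (x k * β j k) else 0)
          + (if l = ⟨i, hij⟩ then (if k = ⟨i, hij⟩ then 2 * s * β i j * (x k * x l) else 0)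
              else 0) := by
        intro l
        have e1 : ((k : ι) = i) ↔ (k = ⟨i, hij⟩) := by
          rw [Subtype.ext_iff]
        have e2 : ((l : ι) = i) ↔ (l = ⟨i, hij⟩) := by
          rw [Subtype.ext_iff]
        rw [hs k j]
        simp only [e1, e2]
        split_ifs <;> ring
      rw [Finset.sum_congr rfl fun l _ => h2 l]
      rw [Finset.sum_add_distrib, Finset.sum_sub_distrib, Finset.sum_sub_distrib]
      simp only [Finset.sum_ite_eq', Finset.mem_univ, if_true]
      congr 2
      congr 1
      split_ifs with h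
      · rw [Finset.mul_sum]
      · simp
    rw [Finset.sum_congr rfl fun k _ => h1 k]
    rw [Finset.sum_add_distrib, Finset.sum_sub_distrib, Finset.sum_sub_distrib]
    simp only [Finset.sum_ite_eq', Finset.mem_univ, if_true]
    rw [← Finset.mul_sum]
    ring
  rw [hL, hR]
  ring

/-- **Signs against the smallest eigenvalue.** -/
theorem exists_signs (N : ℕ) : ∀ {ι : Type} [Fintype ι] [DecidableEq ι] (β : ι → ι → ℝ)
    (_ : Fintype.card ι = N) (_ : ∀ i j, β i j = β j i) (_ : ∀ i, β i i = 0) (y : ι → ℝ),
    ∃ ε : ι → ℝ, (∀ i, ε i = 1 ∨ ε i = -1) ∧ Q β y + (∑ k, y k ^ 2) * Q β ε ≤ 0 := by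
  induction N with
  | zero =>
    intro ι _ _ β hc _ _ y
    have : IsEmpty ι := Fintype.card_eq_zero_iff.mp hc
    refine ⟨fun _ => 1, fun _ => Or.inl rfl, ?_⟩
    simp [Q]
  | succ N ih =>
    intro ι _ _ β hc hs h0 y
    have hne : Nonempty ι := Fintype.card_pos_iff.mp (by omega)
    obtain ⟨v, lam, hlam, hv1, hev, hall⟩ := exists_top β hs h0
    -- it suffices to find signs with value at most `-lam`
    suffices h : ∃ ε : ι → ℝ, (∀ i, ε i = 1 ∨ ε i = -1) ∧ Q β ε ≤ -lam by
      obtain ⟨ε, hε, hQ⟩ := h
      refine ⟨ε, hε, ?_⟩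
      have h1 := hall y
      have h2 : 0 ≤ ∑ k, y k ^ 2 := Finset.sum_nonneg fun k _ => sq_nonneg _
      nlinarith
    rcases hlam.eq_or_lt with hl0 | hlpos
    · refine ⟨fun _ => 1, fun _ => Or.inl rfl, ?_⟩
      have := hall fun _ => 1
      rw [← hl0, zero_mul] at this
      rw [← hl0, neg_zero]
      exact this
    -- index with the largest |v i|
    obtain ⟨i, -, hi⟩ := Finset.exists_max_image Finset.univ (fun k => |v k|) Finset.univ_nonempty
    have hi' : ∀ k, |v k| ≤ |v i| := fun k => hi k (Finset.mem_univ k)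
    have hvi : v i ≠ 0 := by
      intro h
      have : ∀ k, v k = 0 := fun k => by
        have := hi' k
        rw [h, abs_zero] at this
        exact abs_nonpos_iff.mp this
      simp [this] at hv1
    -- sign of the partner
    let σ : ι → ℝ := fun j => if 0 ≤ v i * v j then 1 else -1
    have hσ : ∀ j, σ j ^ 2 = 1 := by
      intro j
      simp only [σ]
      split_ifs <;> norm_num
    have hσ' : ∀ j, σ j = 1 ∨ σ j = -1 := by
      intro j
      simp only [σ]
      split_ifs <;> simp
    have hσv : ∀ j, σ j * (v i * v j) = |v i * v j| := by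
      intro j
      simp only [σ]
      split_ifs with h
      · rw [abs_of_nonneg h, one_mul]
      · rw [abs_of_neg (not_le.mp h)]; ring
    have hsum1 : v i ^ 2 + ∑ k : {k // k ≠ i}, v k ^ 2 = 1 := by
      rw [← Fintype.sum_eq_add_sum_subtype_ne (fun k => v k ^ 2) i]
      exact hv1
    have hsumev : ∑ k : {k // k ≠ i}, β i k * v k = lam * v i := by
      rw [← hev i, Fintype.sum_eq_add_sum_subtype_ne (fun k => β i k * v k) i, h0, zero_mul,
        zero_add]
    have hpart : ∃ j, j ≠ i ∧ lam * (σ j * (v i * v j)) ≤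
        σ j * β i j * (1 - σ j * (v i * v j) + (v i - σ j * v j) ^ 2) := by
      by_contra hcon
      push Not at hcon
      set p := v i ^ 2 with hp
      have hp0 : 0 < p := by positivity
      have hp1 : p < 1 := by
        have hge : 0 ≤ ∑ k : {k // k ≠ i}, v k ^ 2 := Finset.sum_nonneg fun k _ => sq_nonneg _
        rcases hge.eq_or_lt with h | h
        · exfalso
          have hz : ∀ k : {k // k ≠ i}, v k = 0 := by
            intro k
            have := (Finset.sum_eq_zero_iff_of_nonneg
              (fun (k : {k // k ≠ i}) _ => sq_nonneg (v k))).mp h.symm k (Finset.mem_univ k)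
            exact pow_eq_zero_iff (two_ne_zero) |>.mp this
          have : ∑ k : {k // k ≠ i}, β i k * v k = 0 :=
            Finset.sum_eq_zero fun k _ => by rw [hz k, mul_zero]
          rw [this] at hsumev
          have : lam * v i ≠ 0 := mul_ne_zero hlpos.ne' hvi
          exact this hsumev.symm
        · linarith
      have hw : ∀ j, |v i * v j| ≤ p := by
        intro j
        rw [abs_mul, hp, ← sq_abs]
        nlinarith [hi' j, abs_nonneg (v i), abs_nonneg (v j)]
      have hterm : ∀ j : {k // k ≠ i}, (1 - p) * (β i j * (v i * v j)) ≤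
          lam * (p * v j ^ 2) ∧ (v j ≠ 0 → (1 - p) * (β i j * (v i * v j)) <
          lam * (p * v j ^ 2)) := by
        intro j
        have h1 := hcon j j.2
        have h2 : β i j * (v i * v j) = (σ j * β i j) * |v i * v j| := by
          rw [← hσv j]
          calc β i j * (v i * v j) = σ j ^ 2 * (β i j * (v i * v j)) := by rw [hσ, one_mul]
            _ = _ := by ring
        have h3 : p * v j ^ 2 = |v i * v j| ^ 2 := by rw [sq_abs, mul_pow]
        rw [h2, h3]
        rw [hσv j] at h1
        set w := |v i * v (j : ι)| with hwdef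
        set b := σ j * β i j with hb
        have hw0 : 0 ≤ w := abs_nonneg _
        have hwp : w ≤ p := hw j
        have hD : 1 - p ≤ 1 - w + (v i - σ j * v j) ^ 2 := by
          nlinarith [sq_nonneg (v i - σ j * v (j : ι))]
        have hbw : b ≤ 0 ∨ (1 - p) * b < lam * w := by
          rcases le_or_gt b 0 with hb0 | hb0
          · exact Or.inl hb0
          · right
            calc (1 - p) * b ≤ (1 - w + (v i - σ j * v j) ^ 2) * b :=
                  mul_le_mul_of_nonneg_right hD hb0.le
              _ = b * (1 - w + (v i - σ j * v j) ^ 2) := mul_comm _ _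
              _ < lam * w := h1
        have h1p : 0 < 1 - p := by linarith
        constructor
        · rcases hbw with h | h
          · have : (1 - p) * (b * w) ≤ 0 :=
              mul_nonpos_of_nonneg_of_nonpos h1p.le (mul_nonpos_of_nonpos_of_nonneg h hw0)
            have : 0 ≤ lam * w ^ 2 := by positivity
            linarith
          · calc (1 - p) * (b * w) = ((1 - p) * b) * w := by ring
              _ ≤ (lam * w) * w := mul_le_mul_of_nonneg_right h.le hw0
              _ = lam * w ^ 2 := by ring
        · intro hvj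
          have hwpos : 0 < w := abs_pos.mpr (mul_ne_zero hvi hvj)
          rcases hbw with h | h
          · have : (1 - p) * (b * w) ≤ 0 :=
              mul_nonpos_of_nonneg_of_nonpos h1p.le (mul_nonpos_of_nonpos_of_nonneg h hw0)
            have : 0 < lam * w ^ 2 := by positivity
            linarith
          · calc (1 - p) * (b * w) = ((1 - p) * b) * w := by ring
              _ < (lam * w) * w := mul_lt_mul_of_pos_right h hwpos
              _ = lam * w ^ 2 := by ring
      have hex : ∃ j : {k // k ≠ i}, v j ≠ 0 := by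
        by_contra hno
        push Not at hno
        have : ∑ k : {k // k ≠ i}, v k ^ 2 = 0 :=
          Finset.sum_eq_zero fun k _ => by rw [hno k]; norm_num
        linarith
      obtain ⟨j₀, hj₀⟩ := hex
      have hlt : ∑ j : {k // k ≠ i}, (1 - p) * (β i j * (v i * v j)) <
          ∑ j : {k // k ≠ i}, lam * (p * v j ^ 2) :=
        Finset.sum_lt_sum (fun j _ => (hterm j).1) ⟨j₀, Finset.mem_univ _, (hterm j₀).2 hj₀⟩
      have e1 : ∑ j : {k // k ≠ i}, (1 - p) * (β i j * (v i * v j)) = (1 - p) * (lam * p) := by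
        rw [← Finset.mul_sum]
        have : ∑ j : {k // k ≠ i}, β i j * (v i * v j) = v i * ∑ j : {k // k ≠ i}, β i j * v j := by
          rw [Finset.mul_sum]
          exact Finset.sum_congr rfl fun j _ => by ring
        rw [this, hsumev, hp]
        ring
      have e2 : ∑ j : {k // k ≠ i}, lam * (p * v j ^ 2) = lam * (p * (1 - p)) := by
        rw [← Finset.mul_sum, ← Finset.mul_sum]
        have : ∑ k : {k // k ≠ i}, v k ^ 2 = 1 - p := by linarith
        rw [this]
      rw [e1, e2] at hlt
      nlinarith
    obtain ⟨j, hji, hj⟩ := hpart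
    have hij : i ≠ j := hji.symm
    set s := σ j with hsdef
    have hs2 : s ^ 2 = 1 := hσ j
    have hcard : Fintype.card {k // k ≠ j} = N := by
      rw [Fintype.card_subtype_compl, Fintype.card_subtype_eq, hc]
      omega
    have hsym' : ∀ k l, contract β i j s k l = contract β i j s l k := by
      intro k l
      unfold contract
      rw [hs k l, hs j l, hs k j]
      split_ifs <;> ring
    have hzero' : ∀ k, contract β i j s k k = 0 := by
      intro k
      unfold contract
      split_ifs with h
      · rw [h, h0, hs i j]; ring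
      · rw [h0]; ring
    -- the signs attached to signs on the contracted index set
    have hextsign : ∀ ε : {k // k ≠ j} → ℝ, (∀ k, ε k = 1 ∨ ε k = -1) →
        ∀ k, ext i j hij s ε k = 1 ∨ ext i j hij s ε k = -1 := by
      intro ε hε k
      unfold ext
      split_ifs with h
      · exact hε _
      · rcases hσ' j with h1 | h1 <;> rcases hε ⟨i, hij⟩ with h2 | h2 <;>
          rw [hsdef, h1, h2] <;> norm_num
    have hsq : ∀ ε : {k // k ≠ j} → ℝ, (∀ k, ε k = 1 ∨ ε k = -1) → ε ⟨i, hij⟩ ^ 2 = 1 := by
      intro ε hε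
      rcases hε ⟨i, hij⟩ with h2 | h2 <;> rw [h2] <;> norm_num
    -- the test vector
    let y' : {k // k ≠ j} → ℝ := fun k => v k - if (k : ι) = i then s * v j else 0
    have hy'i : y' ⟨i, hij⟩ = v i - s * v j := by simp [y']
    have hexty : ext i j hij s y' = fun k => (v k + if k = i then -(s * v j) else 0) +
        if k = j then -(s * v i) else 0 := by
      funext k
      by_cases hk : k = j
      · subst hk
        simp only [ext, ne_eq, not_true_eq_false, dite_false, hy'i, if_true]
        rw [if_neg hij.symm]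
        have : s * (s * v k) = v k := by
          rw [← mul_assoc, ← pow_two, hs2, one_mul]
        linear_combination this
      · simp only [ext, ne_eq, hk, not_false_eq_true, dite_true, y', if_false, add_zero]
        split_ifs <;> ring
    have hQy' : Q (contract β i j s) y' = lam - 4 * s * lam * (v i * v j) +
        2 * (v i * v j) * β i j + 2 * s * β i j * (v i - s * v j) ^ 2 := by
      have h1 := Q_ext β hs h0 i j hij s y'
      rw [hexty, Q_add_single β hs _ j, Q_add_single β hs v i, hy'i] at h1
      have h2 : ∑ k, β j k * (v k + if k = i then -(s * v j) else 0) =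
          lam * v j + β j i * (-(s * v j)) := by
        have : ∀ k, β j k * (v k + if k = i then -(s * v j) else 0) =
            β j k * v k + if k = i then β j k * (-(s * v j)) else 0 := by
          intro k; split_ifs <;> ring
        rw [Finset.sum_congr rfl fun k _ => this k, Finset.sum_add_distrib, hev j]
        simp
      have h3 : Q β v = lam := by
        unfold Q
        have : ∀ k, ∑ l, v k * v l * β k l = lam * v k ^ 2 := by
          intro k
          have : ∑ l, v k * v l * β k l = v k * ∑ l, β k l * v l := by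
            rw [Finset.mul_sum]
            exact Finset.sum_congr rfl fun l _ => by ring
          rw [this, hev k]; ring
        rw [Finset.sum_congr rfl fun k _ => this k, ← Finset.mul_sum, hv1, mul_one]
      rw [h2, h3, hev i, h0, h0, hs j i] at h1
      linear_combination -h1 + (2 * v i * v j * β i j) * hs2
    have hny' : ∑ k, y' k ^ 2 = 1 - 2 * s * (v i * v j) := by
      have h1 : ∀ k : {k // k ≠ j}, y' k ^ 2 = v k ^ 2 +
          if k = ⟨i, hij⟩ then (v i - s * v j) ^ 2 - v i ^ 2 else 0 := by
        intro k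
        by_cases hk : (k : ι) = i
        · have hk' : k = ⟨i, hij⟩ := Subtype.ext hk
          rw [if_pos hk', hk', hy'i]
          ring
        · have hk' : k ≠ ⟨i, hij⟩ := fun h => hk (by rw [h])
          rw [if_neg hk']
          simp only [y', if_neg hk]
          ring
      rw [Finset.sum_congr rfl fun k _ => h1 k, Finset.sum_add_distrib]
      simp only [Finset.sum_ite_eq', Finset.mem_univ, if_true]
      have h2 : ∑ k : {k // k ≠ j}, v k ^ 2 = 1 - v j ^ 2 := by
        have := Fintype.sum_eq_add_sum_subtype_ne (fun k => v k ^ 2) j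
        rw [hv1] at this
        linarith
      rw [h2]
      linear_combination v j ^ 2 * hs2
    have hnn : 0 ≤ 1 - 2 * s * (v i * v j) := by
      rw [← hny']
      exact Finset.sum_nonneg fun k _ => sq_nonneg _
    rcases hnn.eq_or_lt with hz | hpos
    · -- the degenerate case
      have hvij : (v i - s * v j) ^ 2 = 0 := by
        have hle : y' ⟨i, hij⟩ ^ 2 ≤ ∑ k, y' k ^ 2 :=
          Finset.single_le_sum (f := fun k => y' k ^ 2) (fun _ _ => sq_nonneg _)
            (Finset.mem_univ (⟨i, hij⟩ : {k // k ≠ j}))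
        rw [hny', ← hz, hy'i] at hle
        exact le_antisymm hle (sq_nonneg _)
      obtain ⟨ε, hε, hQε⟩ := ih (contract β i j s) hcard hsym' hzero'
        (fun k => 0 + if k = ⟨i, hij⟩ then 1 else 0)
      rw [Q_add_single _ hsym' (fun _ => 0) ⟨i, hij⟩ 1, hzero'] at hQε
      have hq0 : Q (contract β i j s) (fun _ => (0 : ℝ)) = 0 := by unfold Q; simp
      have hq1 : ∑ k : {k // k ≠ j}, ((0 : ℝ) + if k = ⟨i, hij⟩ then 1 else 0) ^ 2 = 1 := by
        simp
      rw [hq0, hq1] at hQε
      have hQε' : Q (contract β i j s) ε ≤ 0 := by simpa using hQε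
      refine ⟨ext i j hij s ε, hextsign ε hε, ?_⟩
      rw [Q_ext β hs h0 i j hij s ε, hsq ε hε]
      rw [hvij] at hj
      have hw : s * (v i * v j) = 1 / 2 := by linarith
      rw [hw] at hj
      nlinarith
    · obtain ⟨ε, hε, hQε⟩ := ih (contract β i j s) hcard hsym' hzero' y'
      rw [hQy', hny'] at hQε
      refine ⟨ext i j hij s ε, hextsign ε hε, ?_⟩
      rw [Q_ext β hs h0 i j hij s ε, hsq ε hε, mul_one]
      exact step_algebra lam (v i) (v j) (β i j) s hs2 _ hQε hpos hj

end Pool.Agent.Work.MP_4da8b1_gt_helper46
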