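import Pool.Agent.Work.MP_4da8b1_gt.Defs
import Pool.Agent.Work.MP_4da8b1_gt_helper46.SignMax

/-!
# Families of unit vectors, all but one of them antipodal pairs
-/

namespace Pool.Agent.Work.MP_4da8b1_gt_helper46

open Finset Pool.Agent.Work.MP_4da8b1_gt

/-- Signs for linearly dependent vectors: if `∑ y i • b i = 0` then some signed sum of the `b i`
is long. -/
lemma exists_signs_dependent {ι : Type} [Fintype ι] [DecidableEq ι] {n : ℕ} (b : ι → E n)
    (y : ι → ℝ) (hy : ∑ i, y i • b i = 0) :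
    ∃ ε : ι → ℝ, (∀ i, ε i = 1 ∨ ε i = -1) ∧
      ∑ i, y i ^ 2 * ‖b i‖ ^ 2 + (∑ i, y i ^ 2) * (∑ i, ‖b i‖ ^ 2) ≤
        (∑ i, y i ^ 2) * ‖∑ i, ε i • b i‖ ^ 2 := by
  let β : ι → ι → ℝ := fun i j => if i = j then 0 else -inner ℝ (b i) (b j)
  have hnorm : ∀ x : ι → ℝ, Q β x = ∑ i, x i ^ 2 * ‖b i‖ ^ 2 - ‖∑ i, x i • b i‖ ^ 2 := by
    intro x
    have h1 : ‖∑ i, x i • b i‖ ^ 2 = ∑ i, ∑ j, x i * x j * inner ℝ (b i) (b j) := by
      rw [← real_inner_self_eq_norm_sq, sum_inner]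
      refine Finset.sum_congr rfl fun i _ => ?_
      rw [inner_sum]
      refine Finset.sum_congr rfl fun j _ => ?_
      rw [real_inner_smul_left, real_inner_smul_right]
      ring
    rw [h1, ← Finset.sum_sub_distrib]
    unfold Q
    refine Finset.sum_congr rfl fun i _ => ?_
    have h2 : ∀ j, x i * x j * β i j = (if j = i then x i ^ 2 * ‖b i‖ ^ 2 else 0) -
        x i * x j * inner ℝ (b i) (b j) := by
      intro j
      simp only [β]
      by_cases h : i = j
      · subst h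
        rw [if_pos rfl, if_pos rfl, real_inner_self_eq_norm_sq]; ring
      · rw [if_neg h, if_neg (Ne.symm h)]; ring
    rw [Finset.sum_congr rfl fun j _ => h2 j, Finset.sum_sub_distrib]
    simp
  obtain ⟨ε, hε, h⟩ := exists_signs (Fintype.card ι) β rfl
    (by
      intro i j
      simp only [β]
      by_cases h : i = j
      · rw [h]
      · rw [if_neg h, if_neg (Ne.symm h), real_inner_comm])
    (by intro i; simp [β]) y
  refine ⟨ε, hε, ?_⟩
  rw [hnorm, hnorm, hy, norm_zero] at h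
  have h3 : ∑ i, ε i ^ 2 * ‖b i‖ ^ 2 = ∑ i, ‖b i‖ ^ 2 := by
    refine Finset.sum_congr rfl fun i _ => ?_
    rcases hε i with h | h <;> rw [h] <;> ring
  rw [h3] at h
  nlinarith

/-- more vectors of length at least one than the dimension -/
lemma exists_signs_long {ι : Type} [Fintype ι] [DecidableEq ι] {n : ℕ}
    (hcard : n < Fintype.card ι) (b : ι → E n) (hb : ∀ i, 1 ≤ ‖b i‖) :
    ∃ ε : ι → ℝ, (∀ i, ε i = 1 ∨ ε i = -1) ∧
      (Fintype.card ι : ℝ) + 1 ≤ ‖∑ i, ε i • b i‖ ^ 2 := by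
  obtain ⟨y, hy, k, hk⟩ : ∃ y : ι → ℝ, ∑ i, y i • b i = 0 ∧ ∃ k, y k ≠ 0 := by
    have hnot : ¬ LinearIndependent ℝ b := by
      intro h
      have := h.fintype_card_le_finrank
      rw [finrank_euclideanSpace, Fintype.card_fin] at this
      omega
    rw [Fintype.not_linearIndependent_iff] at hnot
    exact hnot
  obtain ⟨ε, hε, h⟩ := exists_signs_dependent b y hy
  refine ⟨ε, hε, ?_⟩
  have hpos : 0 < ∑ i, y i ^ 2 :=
    Finset.sum_pos' (fun i _ => sq_nonneg _) ⟨k, Finset.mem_univ k, by positivity⟩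
  have h1 : ∑ i, y i ^ 2 ≤ ∑ i, y i ^ 2 * ‖b i‖ ^ 2 := by
    refine Finset.sum_le_sum fun i _ => ?_
    have : 1 ≤ ‖b i‖ ^ 2 := by nlinarith [hb i]
    nlinarith [sq_nonneg (y i)]
  have h2 : (Fintype.card ι : ℝ) ≤ ∑ i, ‖b i‖ ^ 2 := by
    have : ∑ _i : ι, (1 : ℝ) ≤ ∑ i, ‖b i‖ ^ 2 :=
      Finset.sum_le_sum fun i _ => by nlinarith [hb i]
    simpa using this
  have h3 : (∑ i, y i ^ 2) * ((Fintype.card ι : ℝ) + 1) ≤
      (∑ i, y i ^ 2) * ‖∑ i, ε i • b i‖ ^ 2 := by
    nlinarith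
  exact le_of_mul_le_mul_left h3 hpos

/-- a balanced family of two vectors is an antipodal pair -/
lemma exists_pair {n : ℕ} {U : Finset (E n)} (hU : IsBalanced n U)
    (h2 : U.card = 2) : ∃ u : E n, ‖u‖ = 1 ∧ u ∈ U ∧ -u ∈ U := by
  obtain ⟨-, -, hunit, w, hw, hsum⟩ := hU
  obtain ⟨x, y, hxy, rfl⟩ := Finset.card_eq_two.mp h2
  rw [Finset.sum_pair hxy] at hsum
  have hx1 := hunit x (by simp)
  have hy1 := hunit y (by simp)
  have hwx := hw x (by simp)
  have hwy := hw y (by simp)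
  have h3 : w x • x = -(w y • y) := eq_neg_of_add_eq_zero_left hsum
  have h4 : w x = w y := by
    have := congrArg norm h3
    rw [norm_neg, norm_smul, norm_smul, hx1, hy1, mul_one, mul_one, Real.norm_of_nonneg hwx.le,
      Real.norm_of_nonneg hwy.le] at this
    exact this
  have h5 : y = -x := by
    rw [h4, ← smul_neg] at h3
    have := smul_right_injective (E n) hwy.ne' h3
    rw [this, neg_neg]
  refine ⟨x, hx1, by simp, ?_⟩
  rw [← h5]
  simp

/-- some vector of a balanced family has distance at least one from a given point -/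
lemma exists_far {n : ℕ} {U : Finset (E n)} (hU : IsBalanced n U) (c : E n) :
    ∃ u ∈ U, 1 ≤ ‖u - c‖ := by
  obtain ⟨hcard, -, hunit, w, hw, hsum⟩ := hU
  by_contra hcon
  push Not at hcon
  have hne : U.Nonempty := Finset.card_pos.mp (by omega)
  have h1 : ∑ u ∈ U, w u * ‖u - c‖ ^ 2 < ∑ u ∈ U, w u := by
    refine Finset.sum_lt_sum_of_nonempty hne fun u hu => ?_
    have h2 := hcon u hu
    have h3 : ‖u - c‖ ^ 2 < 1 := by nlinarith [norm_nonneg (u - c)]
    nlinarith [hw u hu]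
  have h2 : ∑ u ∈ U, w u * ‖u - c‖ ^ 2 = (∑ u ∈ U, w u) * (1 + ‖c‖ ^ 2) := by
    have h3 : ∀ u ∈ U, w u * ‖u - c‖ ^ 2 =
        w u * (1 + ‖c‖ ^ 2) - 2 * inner ℝ (w u • u) c := by
      intro u hu
      rw [norm_sub_sq_real, hunit u hu, real_inner_smul_left]
      ring
    rw [Finset.sum_congr rfl h3, Finset.sum_sub_distrib, ← Finset.mul_sum, ← sum_inner, hsum,
      inner_zero_left, mul_zero, sub_zero, ← Finset.sum_mul]
  have h3 : 0 < ∑ u ∈ U, w u := Finset.sum_pos hw hne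
  rw [h2] at h1
  nlinarith [sq_nonneg ‖c‖]

theorem main {n N : ℕ} (hN : n + 1 ≤ N) (U : Fin N → Finset (E n)) (c : E n)
    (hU : ∀ i, IsBalanced n (U i)) (i₀ : Fin N) (hpair : ∀ i, i ≠ i₀ → (U i).card = 2) :
    ∃ s : Fin N → E n, (∀ i, s i ∈ U i) ∧ √((N : ℝ) + 1) ≤ ‖(∑ i, s i) - c‖ := by
  obtain ⟨u₀, hu₀, hfar⟩ := exists_far (hU i₀) c
  have hp : ∀ i, ∃ u : E n, i ≠ i₀ → ‖u‖ = 1 ∧ u ∈ U i ∧ -u ∈ U i := by
    intro i
    by_cases h : i = i₀
    · exact ⟨0, fun h' => absurd h h'⟩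
    · obtain ⟨u, hu⟩ := exists_pair (hU i) (hpair i h)
      exact ⟨u, fun _ => hu⟩
  choose u hu using hp
  let b : Fin N → E n := fun i => if i = i₀ then u₀ - c else u i
  have hb : ∀ i, 1 ≤ ‖b i‖ := by
    intro i
    simp only [b]
    split_ifs with h
    · exact hfar
    · exact (hu i h).1.ge
  obtain ⟨ε, hε, hlong⟩ := exists_signs_long (by rw [Fintype.card_fin]; omega) b hb
  rw [Fintype.card_fin] at hlong
  have hε₀ : ε i₀ * ε i₀ = 1 := by
    rcases hε i₀ with h | h <;> rw [h] <;> norm_num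
  let s : Fin N → E n := fun i => if i = i₀ then u₀ else (ε i₀ * ε i) • u i
  refine ⟨s, ?_, ?_⟩
  · intro i
    simp only [s]
    split_ifs with h
    · rw [h]; exact hu₀
    · obtain ⟨-, h1, h2⟩ := hu i h
      rcases hε i₀ with h3 | h3 <;> rcases hε i with h4 | h4 <;> rw [h3, h4] <;>
        simp [h1, h2]
  · have hsum : (∑ i, s i) - c = ε i₀ • ∑ i, ε i • b i := by
      rw [Finset.smul_sum]
      have h1 : ∀ i, ε i₀ • ε i • b i = s i - if i = i₀ then c else 0 := by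
        intro i
        simp only [s, b]
        split_ifs with h
        · rw [h, smul_smul, hε₀, one_smul]
        · rw [smul_smul, sub_zero]
      rw [Finset.sum_congr rfl fun i _ => h1 i, Finset.sum_sub_distrib]
      simp
    have hnorm : ‖(∑ i, s i) - c‖ = ‖∑ i, ε i • b i‖ := by
      rw [hsum, norm_smul]
      rcases hε i₀ with h | h <;> rw [h] <;> simp
    rw [hnorm]
    exact Real.sqrt_le_iff.mpr ⟨norm_nonneg _, hlong⟩

end Pool.Agent.Work.MP_4da8b1_gt_helper46
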