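import Pool.Agent.Work.MP_4da8b1_gt.Defs

/-!
# Spread families
-/

namespace Pool.Agent.Work.MP_4da8b1_gt_helper46

open Pool.Agent.Work.MP_4da8b1_gt

/-- The families `U i` (`i < N`) of vectors of `ℝⁿ` are spread: there are nonnegative weights on
each `U i`, of total mass one and with barycentre the origin, such that the sum over the families
of `∑ w(u) w(v) ⟪u, v⟫²` (`u, v ∈ U i`) is at most `N² / n - N / 2`. For unit vectors this double
sum is the trace of the square of the covariance matrix of the family. It is at most one, it is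
`1` for a pair of antipodal vectors and `1 / d` for the vertices of a regular `d`-dimensional
simplex; for `N = n + 1` the condition says that the mean of the `N` double sums is at most
`1 / 2 + 1 / n`. -/
def Spread (n N : ℕ) (U : Fin N → Finset (E n)) : Prop :=
  ∃ w : Fin N → E n → ℝ,
    (∀ i, (∀ u ∈ U i, 0 ≤ w i u) ∧ ∑ u ∈ U i, w i u = 1 ∧ ∑ u ∈ U i, w i u • u = 0) ∧
    ∑ i, ∑ u ∈ U i, ∑ v ∈ U i, w i u * w i v * inner ℝ u v ^ 2 ≤ (N : ℝ) ^ 2 / n - N / 2

end Pool.Agent.Work.MP_4da8b1_gt_helper46
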