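import Pool.Agent.Work.MP_4da8b1_gt_helper46.Moment
import Pool.Agent.Work.MP_4da8b1_gt_helper46.Spread

/-!
# Assembling the cases
-/

namespace Pool.Agent.Work.MP_4da8b1_gt_helper46

open Finset Pool.Agent.Work.MP_4da8b1_gt

/-- all but one of the families contain an antipodal pair -/
theorem main_pairs {n N : ℕ} (hN : n + 1 ≤ N) (U : Fin N → Finset (E n)) (c : E n)
    (hU : ∀ i, IsBalanced n (U i)) (i₀ : Fin N)
    (hpair : ∀ i, i ≠ i₀ → (U i).card = 2 ∨ ∃ u ∈ U i, -u ∈ U i) :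
    ∃ s : Fin N → E n, (∀ i, s i ∈ U i) ∧ √((N : ℝ) + 1) ≤ ‖(∑ i, s i) - c‖ := by
  obtain ⟨u₀, hu₀, hfar⟩ := exists_far (hU i₀) c
  have hp : ∀ i, ∃ u : E n, i ≠ i₀ → ‖u‖ = 1 ∧ u ∈ U i ∧ -u ∈ U i := by
    intro i
    by_cases h : i = i₀
    · exact ⟨0, fun h' => absurd h h'⟩
    · rcases hpair i h with h2 | ⟨u, hu, hu'⟩
      · obtain ⟨u, hu⟩ := exists_pair (hU i) h2
        exact ⟨u, fun _ => hu⟩
      · exact ⟨u, fun _ => ⟨(hU i).2.2.1 u hu, hu, hu'⟩⟩
  choose u hu using hp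
  let b : Fin N → E n := fun i => if i = i₀ then u₀ - c else u i
  have hb : ∀ i, 1 ≤ ‖b i‖ := by
    intro i
    simp only [b]
    split_ifs with h
    · exact hfar
    · exact (hu i h).1.ge
  obtain ⟨ε, hε, hlong⟩ := exists_signs_long (by rw [Fintype.card_fin]; omega) b hb
  rw [Fintype.card_fin] at hlong
  have hε₀ : ε i₀ * ε i₀ = 1 := by
    rcases hε i₀ with h | h <;> rw [h] <;> norm_num
  let s : Fin N → E n := fun i => if i = i₀ then u₀ else (ε i₀ * ε i) • u i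
  refine ⟨s, ?_, ?_⟩
  · intro i
    simp only [s]
    split_ifs with h
    · rw [h]; exact hu₀
    · obtain ⟨-, h1, h2⟩ := hu i h
      rcases hε i₀ with h3 | h3 <;> rcases hε i with h4 | h4 <;> rw [h3, h4] <;>
        simp [h1, h2]
  · have hsum : (∑ i, s i) - c = ε i₀ • ∑ i, ε i • b i := by
      rw [Finset.smul_sum]
      have h1 : ∀ i, ε i₀ • ε i • b i = s i - if i = i₀ then c else 0 := by
        intro i
        simp only [s, b]
        split_ifs with h
        · rw [h, smul_smul, hε₀, one_smul]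
        · rw [smul_smul, sub_zero]
      rw [Finset.sum_congr rfl fun i _ => h1 i, Finset.sum_sub_distrib]
      simp
    have hnorm : ‖(∑ i, s i) - c‖ = ‖∑ i, ε i • b i‖ := by
      rw [hsum, norm_smul]
      rcases hε i₀ with h | h <;> rw [h] <;> simp
    rw [hnorm]
    exact Real.sqrt_le_iff.mpr ⟨norm_nonneg _, hlong⟩

/-- a balanced family has weights of total mass one -/
lemma exists_weights {n : ℕ} {U : Finset (E n)} (hU : IsBalanced n U) :
    ∃ w : E n → ℝ, (∀ u ∈ U, 0 ≤ w u) ∧ ∑ u ∈ U, w u = 1 ∧ ∑ u ∈ U, w u • u = 0 := by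
  obtain ⟨hcard, -, -, w, hw, hsum⟩ := hU
  have hne : U.Nonempty := Finset.card_pos.mp (by omega)
  have hpos : 0 < ∑ u ∈ U, w u := Finset.sum_pos hw hne
  refine ⟨fun u => (∑ u ∈ U, w u)⁻¹ * w u, fun u hu => ?_, ?_, ?_⟩
  · exact mul_nonneg (inv_nonneg.mpr hpos.le) (hw u hu).le
  · rw [← Finset.mul_sum, inv_mul_cancel₀ hpos.ne']
  · have : ∀ u ∈ U, ((∑ u ∈ U, w u)⁻¹ * w u) • u = (∑ u ∈ U, w u)⁻¹ • (w u • u) :=
      fun u _ => mul_smul _ _ _
    rw [Finset.sum_congr rfl this, ← Finset.smul_sum, hsum, smul_zero]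

lemma Tc_self {n N : ℕ} (U : Fin N → Finset (E n)) (w : Fin N → E n → ℝ) (i : Fin N) :
    Tc U w i i = ∑ u ∈ U i, ∑ v ∈ U i, w i u * w i v * inner ℝ u v ^ 2 := by
  unfold Tc Sg
  refine Finset.sum_congr rfl fun u _ => ?_
  rw [Finset.mul_sum]
  exact Finset.sum_congr rfl fun v _ => by ring

/-- spread families -/
theorem main_spread {n N : ℕ} (hN : n + 1 ≤ N) (U : Fin N → Finset (E n)) (c : E n)
    (hU : ∀ i, IsBalanced n (U i)) (hs : Spread n N U) :
    ∃ s : Fin N → E n, (∀ i, s i ∈ U i) ∧ √((N : ℝ) + 1) ≤ ‖(∑ i, s i) - c‖ := by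
  have hn : 0 < n := by
    rcases Nat.eq_zero_or_pos n with h | h
    · exfalso
      subst h
      have i : Fin N := ⟨0, by omega⟩
      obtain ⟨hcard, -, hunit, -⟩ := hU i
      obtain ⟨u, hu⟩ := Finset.card_pos.mp (show 0 < (U i).card by omega)
      have h1 := hunit u hu
      rw [Subsingleton.elim u 0, norm_zero] at h1
      exact zero_ne_one h1
    · exact h
  obtain ⟨w, hw, hsp⟩ := hs
  obtain ⟨s, hs, h⟩ := spread_bound U w (fun i => (hU i).2.2.1) (fun i => (hw i).2.1)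
    (fun i => (hw i).2.2) (fun i => (hw i).1) hn (by omega) c
    (by rw [Finset.sum_congr rfl fun i _ => Tc_self U w i]; exact hsp)
  exact ⟨s, hs, Real.sqrt_le_iff.mpr ⟨norm_nonneg _, h⟩⟩

/-- many families are spread -/
theorem spread_of_many {n N : ℕ} (hn : 3 * n ≤ 2 * N) (hN : n + 1 ≤ N)
    (U : Fin N → Finset (E n)) (hU : ∀ i, IsBalanced n (U i)) : Spread n N U := by
  choose w hw using fun i => exists_weights (hU i)
  refine ⟨w, hw, ?_⟩
  have hn0 : 0 < n := by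
    rcases Nat.eq_zero_or_pos n with h | h
    · exfalso
      subst h
      have i : Fin N := ⟨0, by omega⟩
      obtain ⟨hcard, -, hunit, -⟩ := hU i
      obtain ⟨u, hu⟩ := Finset.card_pos.mp (show 0 < (U i).card by omega)
      have h1 := hunit u hu
      rw [Subsingleton.elim u 0, norm_zero] at h1
      exact zero_ne_one h1
    · exact h
  have h1 : ∀ i, ∑ u ∈ U i, ∑ v ∈ U i, w i u * w i v * inner ℝ u v ^ 2 ≤ 1 := by
    intro i
    have h2 : ∑ u ∈ U i, ∑ v ∈ U i, w i u * w i v * inner ℝ u v ^ 2 ≤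
        ∑ u ∈ U i, ∑ v ∈ U i, w i u * w i v := by
      refine Finset.sum_le_sum fun u hu => Finset.sum_le_sum fun v hv => ?_
      have h3 : |inner ℝ u v| ≤ 1 := by
        have := abs_real_inner_le_norm u v
        rw [(hU i).2.2.1 u hu, (hU i).2.2.1 v hv, mul_one] at this
        exact this
      have h4 : inner ℝ u v ^ 2 ≤ 1 := by
        rw [← sq_abs]
        nlinarith [abs_nonneg (inner ℝ u v : ℝ)]
      have h5 : 0 ≤ w i u * w i v := mul_nonneg ((hw i).1 u hu) ((hw i).1 v hv)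
      nlinarith
    refine h2.trans_eq ?_
    rw [← Finset.sum_mul_sum, (hw i).2.1, one_mul]
  have h2 : ∑ i, ∑ u ∈ U i, ∑ v ∈ U i, w i u * w i v * inner ℝ u v ^ 2 ≤ (N : ℝ) := by
    refine (Finset.sum_le_sum fun i _ => h1 i).trans_eq ?_
    simp
  refine h2.trans ?_
  have hnr : (0 : ℝ) < n := by exact_mod_cast hn0
  have h3 : (3 : ℝ) * n ≤ 2 * N := by exact_mod_cast hn
  have hNr : (0 : ℝ) ≤ N := by positivity
  have h4 : (N : ℝ) * (3 / 2) ≤ (N : ℝ) ^ 2 / n := by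
    rw [le_div_iff₀ hnr]
    nlinarith
  linarith

theorem main_all {n N : ℕ} (hN : n + 1 ≤ N) (U : Fin N → Finset (E n)) (c : E n)
    (hU : ∀ i, IsBalanced n (U i))
    (h : (∃ i₀ : Fin N, ∀ i, i ≠ i₀ → (U i).card = 2 ∨ ∃ u ∈ U i, -u ∈ U i) ∨
      Spread n N U ∨ 3 * n ≤ 2 * N) :
    ∃ s : Fin N → E n, (∀ i, s i ∈ U i) ∧ √((N : ℝ) + 1) ≤ ‖(∑ i, s i) - c‖ := by
  rcases h with ⟨i₀, h⟩ | h | h
  · exact main_pairs hN U c hU i₀ h
  · exact main_spread hN U c hU h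
  · exact main_spread hN U c hU (spread_of_many h hN U hU)

end Pool.Agent.Work.MP_4da8b1_gt_helper46
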