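import Pool.Agent.Work.MP_4da8b1_gt_helper46.Families

/-!
# Families of unit vectors: the fourth moment
-/

namespace Pool.Agent.Work.MP_4da8b1_gt_helper46

open Finset Pool.Agent.Work.MP_4da8b1_gt

/-- the frame inequality -/
lemma frame {α : Type*} (A : Finset α) {n : ℕ} (μ : α → ℝ) (x : α → E n)
    (hx : ∀ a ∈ A, ‖x a‖ = 1) :
    (∑ a ∈ A, μ a) ^ 2 ≤ n * ∑ a ∈ A, ∑ b ∈ A, μ a * μ b * inner ℝ (x a) (x b) ^ 2 := by
  let M : Fin n → Fin n → ℝ := fun k l => ∑ a ∈ A, μ a * (x a k * x a l)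
  have h1 : ∑ a ∈ A, ∑ b ∈ A, μ a * μ b * inner ℝ (x a) (x b) ^ 2 = ∑ k, ∑ l, M k l ^ 2 := by
    have e1 : ∀ a b, μ a * μ b * inner ℝ (x a) (x b) ^ 2 =
        ∑ k, ∑ l, (μ a * (x a k * x a l)) * (μ b * (x b k * x b l)) := by
      intro a b
      have : inner ℝ (x a) (x b) = ∑ k, x a k * x b k := by
        rw [PiLp.inner_apply]
        exact Finset.sum_congr rfl fun k _ => by simp [mul_comm]
      rw [this, pow_two, Finset.sum_mul_sum, Finset.mul_sum]
      refine Finset.sum_congr rfl fun k _ => ?_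
      rw [Finset.mul_sum]
      exact Finset.sum_congr rfl fun l _ => by ring
    have e2 : ∀ k l, M k l ^ 2 =
        ∑ a ∈ A, ∑ b ∈ A, (μ a * (x a k * x a l)) * (μ b * (x b k * x b l)) := by
      intro k l
      rw [pow_two, Finset.sum_mul_sum]
    calc ∑ a ∈ A, ∑ b ∈ A, μ a * μ b * inner ℝ (x a) (x b) ^ 2
        = ∑ a ∈ A, ∑ b ∈ A, ∑ k, ∑ l, (μ a * (x a k * x a l)) * (μ b * (x b k * x b l)) :=
          Finset.sum_congr rfl fun a _ => Finset.sum_congr rfl fun b _ => e1 a b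
      _ = ∑ a ∈ A, ∑ k, ∑ b ∈ A, ∑ l, (μ a * (x a k * x a l)) * (μ b * (x b k * x b l)) :=
          Finset.sum_congr rfl fun a _ => Finset.sum_comm
      _ = ∑ k, ∑ a ∈ A, ∑ b ∈ A, ∑ l, (μ a * (x a k * x a l)) * (μ b * (x b k * x b l)) :=
          Finset.sum_comm
      _ = ∑ k, ∑ a ∈ A, ∑ l, ∑ b ∈ A, (μ a * (x a k * x a l)) * (μ b * (x b k * x b l)) :=
          Finset.sum_congr rfl fun k _ => Finset.sum_congr rfl fun a _ => Finset.sum_comm
      _ = ∑ k, ∑ l, ∑ a ∈ A, ∑ b ∈ A, (μ a * (x a k * x a l)) * (μ b * (x b k * x b l)) :=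
          Finset.sum_congr rfl fun k _ => Finset.sum_comm
      _ = ∑ k, ∑ l, M k l ^ 2 :=
          Finset.sum_congr rfl fun k _ => Finset.sum_congr rfl fun l _ => (e2 k l).symm
  have h2 : ∑ k, M k k = ∑ a ∈ A, μ a := by
    show ∑ k, ∑ a ∈ A, μ a * (x a k * x a k) = _
    rw [Finset.sum_comm]
    refine Finset.sum_congr rfl fun a ha => ?_
    rw [← Finset.mul_sum]
    have : ∑ k, x a k * x a k = 1 := by
      have h3 := EuclideanSpace.real_norm_sq_eq (x a)
      rw [hx a ha] at h3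
      rw [← one_pow 2 (M := ℝ), h3]
      exact Finset.sum_congr rfl fun k _ => (pow_two _).symm
    rw [this, mul_one]
  have h3 : (∑ k, M k k) ^ 2 ≤ n * ∑ k, M k k ^ 2 := by
    have := sq_sum_le_card_mul_sum_sq (s := (Finset.univ : Finset (Fin n))) (f := fun k => M k k)
    simpa using this
  have h4 : ∑ k, M k k ^ 2 ≤ ∑ k, ∑ l, M k l ^ 2 := by
    refine Finset.sum_le_sum fun k _ => ?_
    exact Finset.single_le_sum (f := fun l => M k l ^ 2) (fun _ _ => sq_nonneg _)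
      (Finset.mem_univ k)
  rw [h1, ← h2]
  calc (∑ k, M k k) ^ 2 ≤ n * ∑ k, M k k ^ 2 := h3
    _ ≤ n * ∑ k, ∑ l, M k l ^ 2 := mul_le_mul_of_nonneg_left h4 (by positivity)

section
variable {n N : ℕ} (U : Fin N → Finset (E n)) (w : Fin N → E n → ℝ)

/-- the energy of the family `i` in the direction `z` -/
noncomputable def Sg (i : Fin N) (z : E n) : ℝ := ∑ u ∈ U i, w i u * inner ℝ z u ^ 2

/-- the correlation of two families -/
noncomputable def Tc (i j : Fin N) : ℝ := ∑ u ∈ U i, w i u * Sg U w j u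

/-- the conditional expectation of `f ^ 2 - A f` -/
noncomputable def Psi (A : ℝ) (S : Finset (Fin N)) (z : E n) : ℝ :=
  (‖z‖ ^ 2 + S.card) ^ 2 + 4 * ∑ i ∈ S, Sg U w i z +
    2 * (∑ i ∈ S, ∑ j ∈ S, Tc U w i j - ∑ i ∈ S, Tc U w i i) - A * (‖z‖ ^ 2 + S.card)

lemma Tc_comm (i j : Fin N) : Tc U w i j = Tc U w j i := by
  unfold Tc Sg
  have h1 : ∀ u, w i u * ∑ v ∈ U j, w j v * inner ℝ u v ^ 2 =
      ∑ v ∈ U j, w j v * (w i u * inner ℝ v u ^ 2) := by
    intro u
    rw [Finset.mul_sum]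
    refine Finset.sum_congr rfl fun v _ => ?_
    rw [real_inner_comm]
    ring
  rw [Finset.sum_congr rfl fun u _ => h1 u, Finset.sum_comm]
  refine Finset.sum_congr rfl fun v _ => ?_
  rw [Finset.mul_sum]

variable (hunit : ∀ i, ∀ u ∈ U i, ‖u‖ = 1) (hw1 : ∀ i, ∑ u ∈ U i, w i u = 1)
  (hw0 : ∀ i, ∑ u ∈ U i, w i u • u = 0)

include hw0 in
lemma sum_inner_zero (i : Fin N) (z : E n) : ∑ u ∈ U i, w i u * inner ℝ z u = 0 := by
  have : ∑ u ∈ U i, w i u * inner ℝ z u = inner ℝ z (∑ u ∈ U i, w i u • u) := by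
    rw [inner_sum]
    exact Finset.sum_congr rfl fun u _ => by rw [real_inner_smul_right]
  rw [this, hw0, inner_zero_right]

include hunit hw1 hw0 in
lemma Psi_avg (A : ℝ) (S : Finset (Fin N)) (k : Fin N) (hk : k ∉ S) (z : E n) :
    ∑ u ∈ U k, w k u * Psi U w A S (z + u) = Psi U w A (insert k S) z := by
  have hz := sum_inner_zero U w hw0 k z
  set a := ‖z‖ ^ 2 + S.card + 1 with ha
  -- expansion of the summands
  have hSg : ∀ i, ∑ u ∈ U k, w k u * Sg U w i (z + u) = Sg U w i z + Tc U w k i := by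
    intro i
    have h1 : ∀ u ∈ U k, w k u * Sg U w i (z + u) = w k u * Sg U w i z +
        2 * (∑ v ∈ U i, w i v * inner ℝ z v * (w k u * inner ℝ v u)) + w k u * Sg U w i u := by
      intro u _
      unfold Sg
      rw [Finset.mul_sum, Finset.mul_sum, Finset.mul_sum, Finset.mul_sum,
        ← Finset.sum_add_distrib, ← Finset.sum_add_distrib]
      refine Finset.sum_congr rfl fun v _ => ?_
      rw [inner_add_left, real_inner_comm v u]
      ring
    rw [Finset.sum_congr rfl h1, Finset.sum_add_distrib, Finset.sum_add_distrib,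
      ← Finset.sum_mul, hw1, one_mul, ← Finset.mul_sum, Finset.sum_comm]
    have h2 : ∀ v ∈ U i, ∑ u ∈ U k, w i v * inner ℝ z v * (w k u * inner ℝ v u) = 0 := by
      intro v _
      rw [← Finset.mul_sum, sum_inner_zero U w hw0 k v, mul_zero]
    rw [Finset.sum_eq_zero h2, mul_zero, add_zero]
    rfl
  have h1 : ∀ u ∈ U k, w k u * Psi U w A S (z + u) =
      w k u * (a ^ 2 - A * a + 2 * (∑ i ∈ S, ∑ j ∈ S, Tc U w i j - ∑ i ∈ S, Tc U w i i)) +
      (4 * a - 2 * A) * (w k u * inner ℝ z u) + 4 * (w k u * inner ℝ z u ^ 2) +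
      4 * ∑ i ∈ S, w k u * Sg U w i (z + u) := by
    intro u hu
    unfold Psi
    rw [norm_add_sq_real, hunit k u hu, ← Finset.mul_sum]
    ring
  rw [Finset.sum_congr rfl h1, Finset.sum_add_distrib, Finset.sum_add_distrib,
    Finset.sum_add_distrib, ← Finset.sum_mul, hw1, one_mul, ← Finset.mul_sum, hz, mul_zero,
    add_zero, ← Finset.mul_sum, ← Finset.mul_sum]
  have hcomm : ∑ u ∈ U k, ∑ i ∈ S, w k u * Sg U w i (z + u) =
      ∑ i ∈ S, Sg U w i z + ∑ i ∈ S, Tc U w k i := by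
    rw [Finset.sum_comm, Finset.sum_congr rfl fun i _ => hSg i, Finset.sum_add_distrib]
  rw [hcomm]
  unfold Psi
  rw [Finset.card_insert_of_notMem hk, Finset.sum_insert hk, Finset.sum_insert hk,
    Finset.sum_insert hk, Finset.sum_insert hk]
  have h3 : ∑ i ∈ S, ∑ j ∈ insert k S, Tc U w i j =
      ∑ i ∈ S, Tc U w k i + ∑ i ∈ S, ∑ j ∈ S, Tc U w i j := by
    rw [← Finset.sum_add_distrib]
    refine Finset.sum_congr rfl fun i _ => ?_
    rw [Finset.sum_insert hk, Tc_comm]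
  rw [h3]
  push_cast
  have h4 : Sg U w k z = ∑ u ∈ U k, w k u * inner ℝ z u ^ 2 := rfl
  rw [← h4, ha]
  ring

include hunit hw1 hw0 in
lemma exists_choice (hwn : ∀ i, ∀ u ∈ U i, 0 ≤ w i u) (A : ℝ) (S : Finset (Fin N)) :
    ∀ z : E n, ∃ s : Fin N → E n, (∀ i ∈ S, s i ∈ U i) ∧
      Psi U w A S z ≤ (‖z + ∑ i ∈ S, s i‖ ^ 2) ^ 2 - A * ‖z + ∑ i ∈ S, s i‖ ^ 2 := by
  induction S using Finset.induction_on with
  | empty =>
    intro z
    refine ⟨fun _ => 0, by simp, ?_⟩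
    simp [Psi]
  | insert k S hk ih =>
    intro z
    obtain ⟨u, hu, hle⟩ : ∃ u ∈ U k, Psi U w A (insert k S) z ≤ Psi U w A S (z + u) := by
      by_contra hcon
      push Not at hcon
      have hne : ∃ u ∈ U k, 0 < w k u := by
        by_contra hno
        push Not at hno
        have : ∑ u ∈ U k, w k u ≤ 0 := Finset.sum_nonpos hno
        rw [hw1] at this
        linarith
      obtain ⟨u₀, hu₀, hpos⟩ := hne
      have h1 := Psi_avg U w hunit hw1 hw0 A S k hk z
      have h2 : ∑ u ∈ U k, w k u * Psi U w A S (z + u) <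
          ∑ u ∈ U k, w k u * Psi U w A (insert k S) z := by
        refine Finset.sum_lt_sum (fun u hu => ?_) ⟨u₀, hu₀, ?_⟩
        · exact mul_le_mul_of_nonneg_left (hcon u hu).le (hwn k u hu)
        · exact mul_lt_mul_of_pos_left (hcon u₀ hu₀) hpos
      rw [← Finset.sum_mul, hw1, one_mul, h1] at h2
      exact lt_irrefl _ h2
    obtain ⟨s, hs, hfin⟩ := ih (z + u)
    have hsum : ∑ i ∈ S, (if i = k then u else s i) = ∑ i ∈ S, s i :=
      Finset.sum_congr rfl fun i hi => by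
        have hne : i ≠ k := by
          rintro rfl
          exact hk hi
        rw [if_neg hne]
    refine ⟨fun i => if i = k then u else s i, ?_, ?_⟩
    · intro i hi
      show (if i = k then u else s i) ∈ U i
      by_cases h : i = k
      · rw [if_pos h, h]; exact hu
      · rw [if_neg h]
        exact hs i (Finset.mem_of_mem_insert_of_ne hi h)
    · rw [Finset.sum_insert hk, if_pos rfl, hsum, ← add_assoc]
      exact hle.trans hfin

include hunit hw1 hw0 in
/-- the second moment of the square of the length -/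
theorem spread_bound (hwn : ∀ i, ∀ u ∈ U i, 0 ≤ w i u) (hn : 0 < n) (hN : 0 < N) (c : E n)
    (hsp : ∑ i, Tc U w i i ≤ (N : ℝ) ^ 2 / n - N / 2) :
    ∃ s : Fin N → E n, (∀ i, s i ∈ U i) ∧ (N : ℝ) + 1 ≤ ‖(∑ i, s i) - c‖ ^ 2 := by
  classical
  -- the frame inequality for the union of the families
  have hframe : (N : ℝ) ^ 2 ≤ n * ∑ i, ∑ j, Tc U w i j := by
    have h := frame (Finset.univ.sigma U) (fun a => w a.1 a.2) (fun a => a.2)
      (fun a ha => hunit a.1 a.2 (Finset.mem_sigma.mp ha).2)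
    rw [Finset.sum_sigma] at h
    have h1 : ∑ i, ∑ u ∈ U i, w i u = (N : ℝ) := by
      rw [Finset.sum_congr rfl fun i _ => hw1 i]
      simp
    rw [h1] at h
    refine h.trans_eq ?_
    congr 1
    rw [Finset.sum_sigma]
    refine Finset.sum_congr rfl fun i _ => ?_
    have h2 : ∀ u ∈ U i, ∑ b ∈ Finset.univ.sigma U, w i u * w b.1 b.2 * inner ℝ u b.2 ^ 2 =
        ∑ j, w i u * Sg U w j u := by
      intro u _
      rw [Finset.sum_sigma]
      refine Finset.sum_congr rfl fun j _ => ?_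
      unfold Sg
      rw [Finset.mul_sum]
      exact Finset.sum_congr rfl fun v _ => by ring
    rw [Finset.sum_congr rfl h2, Finset.sum_comm]
    rfl
  have hV : (N : ℝ) ≤ 2 * (∑ i, ∑ j, Tc U w i j - ∑ i, Tc U w i i) := by
    have hn' : (0 : ℝ) < n := by exact_mod_cast hn
    have h1 : (N : ℝ) ^ 2 / n ≤ ∑ i, ∑ j, Tc U w i j := by
      rw [div_le_iff₀ hn']
      linarith [hframe, mul_comm (n : ℝ) (∑ i, ∑ j, Tc U w i j)]
    linarith
  -- the best choice
  have hNr : (1 : ℝ) ≤ N := by exact_mod_cast hN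
  have hSg0 : ∀ i (z : E n), 0 ≤ Sg U w i z := fun i z =>
    Finset.sum_nonneg fun u hu => mul_nonneg (hwn i u hu) (sq_nonneg _)
  have heps : ∀ ε : ℝ, 0 < ε → ∃ s : Fin N → E n, (∀ i, s i ∈ U i) ∧
      (N : ℝ) + 1 - ε < ‖(∑ i, s i) - c‖ ^ 2 := by
    intro ε hε
    obtain ⟨s, hs, h⟩ := exists_choice U w hunit hw1 hw0 hwn ((N : ℝ) + 1 - ε) Finset.univ (-c)
    refine ⟨s, fun i => hs i (Finset.mem_univ i), ?_⟩
    have e1 : -c + ∑ i, s i = (∑ i, s i) - c := by abel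
    rw [e1] at h
    set f := ‖(∑ i, s i) - c‖ ^ 2 with hf
    have hf0 : 0 ≤ f := by positivity
    unfold Psi at h
    rw [norm_neg, Finset.card_univ, Fintype.card_fin] at h
    have hS : 0 ≤ ∑ i, Sg U w i (-c) := Finset.sum_nonneg fun i _ => hSg0 i _
    set r := ‖c‖ ^ 2 with hr
    have hr0 : 0 ≤ r := by positivity
    have hpos : 0 < f ^ 2 - ((N : ℝ) + 1 - ε) * f := by
      have h1 : (r + N) ^ 2 + (N : ℝ) - ((N : ℝ) + 1 - ε) * (r + N) ≤
          f ^ 2 - ((N : ℝ) + 1 - ε) * f := by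
        refine le_trans ?_ h
        linarith
      have h2 : (r + N) ^ 2 + (N : ℝ) - ((N : ℝ) + 1 - ε) * (r + N) =
          r ^ 2 + ((N : ℝ) - 1) * r + ε * (r + N) := by ring
      have h3 : 0 ≤ ((N : ℝ) - 1) * r := mul_nonneg (by linarith) hr0
      have h4 : 0 < ε * (r + N) := mul_pos hε (by linarith)
      nlinarith [sq_nonneg r]
    by_contra hcon
    push Not at hcon
    nlinarith [mul_nonneg hf0 (sub_nonneg.mpr hcon)]
  -- finiteness
  obtain ⟨s₀, hs₀, -⟩ := heps 1 one_pos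
  obtain ⟨s, hs, hmax⟩ := Finset.exists_max_image (Fintype.piFinset U)
    (fun s => ‖(∑ i, s i) - c‖ ^ 2) ⟨s₀, Fintype.mem_piFinset.mpr hs₀⟩
  refine ⟨s, fun i => Fintype.mem_piFinset.mp hs i, ?_⟩
  by_contra hcon
  push Not at hcon
  obtain ⟨s', hs', h'⟩ := heps ((N : ℝ) + 1 - ‖(∑ i, s i) - c‖ ^ 2) (by linarith)
  have := hmax s' (Fintype.mem_piFinset.mpr hs')
  linarith

end

end Pool.Agent.Work.MP_4da8b1_gt_helper46
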